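import Pool.Agent.W488.SqFree.Dim

/-!
In characteristic `p > 0` the conjectured Hilbert series fails for a single form of any degree
`d ≥ 1` in the square-free algebra on `n ≥ (2p-1)d` variables, for every form of degree `d`.
-/

namespace Pool.Agent.Results.MP_3acc10_al.PositiveCharacteristic

open Pool.Agent.W488.SqFree MvPolynomial

/-- Unimodality of binomial coefficients. -/
theorem choose_le_choose_of_add_le {n a b : ℕ} (hab : a ≤ b) (h : a + b ≤ n) :
    n.choose a ≤ n.choose b := by
  have mono : ∀ c, a ≤ c → 2 * c ≤ n → n.choose a ≤ n.choose c := by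
    intro c hac
    induction c, hac using Nat.le_induction with
    | base => intro _; exact le_rfl
    | succ c hac ih =>
      intro hc
      refine (ih (by omega)).trans ?_
      have h1 := Nat.choose_succ_right_eq n c
      have h2 : n.choose c * (c + 1) ≤ n.choose (c + 1) * (c + 1) := by
        rw [h1]
        exact Nat.mul_le_mul_left _ (by omega)
      exact Nat.le_of_mul_le_mul_right h2 (Nat.succ_pos c)
  by_cases hb : 2 * b ≤ n
  · exact mono b hab hb
  · have hbn : b ≤ n := by omega
    rw [← Nat.choose_symm hbn]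
    exact mono (n - b) (by omega) (by omega)

variable {K : Type*} [Field K] {n : ℕ}

theorem one_ne_zero' : (1 : SqAlg K n) ≠ 0 := by
  classical
  intro h
  have h1 : mono K n ∅ = 1 := by simp [mono]
  have := cf_mono (K := K) (n := n) ∅ ∅
  rw [h1, h, map_zero, if_pos rfl] at this
  exact zero_ne_one this

instance : Nontrivial (SqAlg K n) := ⟨1, 0, one_ne_zero'⟩

/-- The Frobenius kills forms of positive degree. -/
theorem form_pow_char (p : ℕ) [Fact p.Prime] [CharP K p] {d : ℕ} (hd : 1 ≤ d)
    (a : CoeffIdx n (fun _ : Fin 1 => d) → K) : form a 0 ^ p = 0 := by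
  classical
  have : CharP (SqAlg K n) p := charP_of_injective_algebraMap (algebraMap K (SqAlg K n)).injective p
  rw [form, sum_pow_char p]
  refine Finset.sum_eq_zero fun s _ => ?_
  have hp : 2 ≤ p := (Fact.out : p.Prime).two_le
  have hs : (s : Finset (Fin n)).Nonempty := by
    rw [← Finset.card_pos, s.2]; exact hd
  have h2 : mono K n (s : Finset (Fin n)) ^ 2 = 0 := by
    rw [sq, mono_mul_mono, if_neg]
    rw [disjoint_self]
    exact hs.ne_empty
  rw [smul_pow]
  obtain ⟨e, he⟩ : ∃ e, p = 2 + e := ⟨p - 2, by omega⟩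
  have h3 : mono K n (s : Finset (Fin n)) ^ p = 0 := by rw [he, pow_add, h2, zero_mul]
  rw [h3, smul_zero]

/-- A nonzero homogeneous element of degree `i` has a nonzero multiple `g x^T` of degree `j`,
`i ≤ j ≤ n`. -/
theorem exists_mul_mono_ne_zero {i j : ℕ} (hij : i ≤ j) (hj : j ≤ n) {g : SqAlg K n}
    (hg : g ∈ piece K n i) (hne : g ≠ 0) :
    ∃ T : Finset (Fin n), T.card = j - i ∧ g * mono K n T ≠ 0 := by
  classical
  obtain ⟨S, hS⟩ : ∃ S, cf S g ≠ 0 := by
    by_contra hcon
    push Not at hcon
    apply hne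
    rw [eq_sum_cf g]
    exact Finset.sum_eq_zero fun s _ => by rw [hcon s, zero_smul]
  have hSc : S.card = i := by
    by_contra hcon
    exact hS (cf_eq_zero_of_mem_piece hg hcon)
  obtain ⟨T, hTsub, hT⟩ := Finset.exists_subset_card_eq (s := Sᶜ) (n := j - i)
    (by rw [Finset.card_compl, Fintype.card_fin, hSc]; omega)
  have hdisj : Disjoint S T := by
    rw [Finset.disjoint_left]
    intro x hx hxT
    exact (Finset.mem_compl.mp (hTsub hxT)) hx
  refine ⟨T, hT, fun h0 => hS ?_⟩
  have h1 : cf (S ∪ T) (g * mono K n T) = cf S g := by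
    conv_lhs => rw [eq_sum_cf g, Finset.sum_mul, map_sum]
    rw [Finset.sum_eq_single S]
    · rw [smul_mul_assoc, map_smul, mono_mul_mono, if_pos hdisj, cf_mono, if_pos rfl, smul_eq_mul,
        mul_one]
    · intro S' _ hS'
      rw [smul_mul_assoc, map_smul, mono_mul_mono]
      split_ifs with hd
      · rw [cf_mono, if_neg, smul_zero]
        intro hU
        apply hS'
        have h2 : (S' ∪ T) \ T = (S ∪ T) \ T := by rw [hU]
        rwa [Finset.union_sdiff_cancel_right hd, Finset.union_sdiff_cancel_right hdisj] at h2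
      · rw [map_zero, smul_zero]
    · intro h; exact absurd (Finset.mem_univ S) h
  rw [← h1, h0, map_zero]

theorem coeff_poly (n d k : ℕ) (hk : d ≤ k) :
    PowerSeries.coeff k ((1 + PowerSeries.X : PowerSeries ℤ) ^ n *
      ∏ _j : Fin 1, (1 - PowerSeries.X ^ d)) = (n.choose k : ℤ) - n.choose (k - d) := by
  obtain ⟨m, rfl⟩ : ∃ m, k = m + d := ⟨k - d, by omega⟩
  have h1 : ∀ i, PowerSeries.coeff i ((1 + PowerSeries.X : PowerSeries ℤ) ^ n) = n.choose i := by
    intro i
    have : (1 + PowerSeries.X : PowerSeries ℤ) ^ n =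
        (((1 + Polynomial.X : Polynomial ℤ) ^ n : Polynomial ℤ) : PowerSeries ℤ) := by
      rw [Polynomial.coe_pow, Polynomial.coe_add, Polynomial.coe_one, Polynomial.coe_X]
    rw [this, Polynomial.coeff_coe, Polynomial.coeff_one_add_X_pow]
  have h2 : (1 + PowerSeries.X : PowerSeries ℤ) ^ n * ∏ _j : Fin 1, (1 - PowerSeries.X ^ d) =
      (1 + PowerSeries.X) ^ n - (1 + PowerSeries.X) ^ n * PowerSeries.X ^ d := by
    rw [Fin.prod_univ_one]; ring
  rw [h2, map_sub, PowerSeries.coeff_mul_X_pow', if_pos (by omega), h1, h1]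

/-- Let `K` be an infinite field of characteristic `p > 0`, `d ≥ 1` and `n ≥ (2p-1)d`. Then for
every form of degree `d` the Hilbert series of the quotient of the square-free algebra on `n`
variables by it is different from `⟨(1+t)^n (1-t^d)⟩`; in particular the conjectured formula
fails for a generic form. -/
theorem result (K : Type*) [Field K] [Infinite K] (p : ℕ) [Fact p.Prime] [CharP K p] (d n : ℕ)
    (hd : 1 ≤ d) (hn : (2 * p - 1) * d ≤ n) :
    (∀ a : CoeffIdx n (fun _ : Fin 1 => d) → K,
      hilbertSeries (idealOf a) ≠ expected n (fun _ : Fin 1 => d)) ∧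
    ¬ Generic K n (fun _ : Fin 1 => d)
      (fun a => hilbertSeries (idealOf a) = expected n (fun _ : Fin 1 => d)) := by
  classical
  have hall : ∀ a : CoeffIdx n (fun _ : Fin 1 => d) → K,
      hilbertSeries (idealOf a) ≠ expected n (fun _ : Fin 1 => d) := by
    intro a heq
    have hp : 2 ≤ p := (Fact.out : p.Prime).two_le
    obtain ⟨q, rfl⟩ : ∃ q, p = q + 1 := ⟨p - 1, by omega⟩
    have hn' : q * d + (q * d + d) ≤ n := by
      have : (2 * (q + 1) - 1) * d = q * d + (q * d + d) := by
        have : 2 * (q + 1) - 1 = q + (q + 1) := by omega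
        rw [this]; ring
      omega
    set f : SqAlg K n := form a 0 with hf
    have hfp : f ∈ piece K n d := form_mem_piece a 0
    have hex : ∃ e, f ^ e = 0 := ⟨q + 1, form_pow_char (q + 1) hd a⟩
    have hspec := Nat.find_spec hex
    have hle : Nat.find hex ≤ q + 1 := Nat.find_min' hex (form_pow_char (q + 1) hd a)
    have hpos : Nat.find hex ≠ 0 := by
      intro h0
      rw [h0, pow_zero] at hspec
      exact one_ne_zero' hspec
    obtain ⟨e, he⟩ := Nat.exists_eq_succ_of_ne_zero hpos
    have hg : f ^ e ≠ 0 := Nat.find_min hex (by omega)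
    have hfg : f * f ^ e = 0 := by
      rw [he, pow_succ] at hspec
      rw [mul_comm]; exact hspec
    have hed : e * d ≤ q * d := Nat.mul_le_mul_right _ (by omega)
    obtain ⟨T, hT, hne⟩ := exists_mul_mono_ne_zero (j := q * d) hed (by omega)
      (pow_mem_piece hfp e) hg
    have hmem : f ^ e * mono K n T ∈ piece K n (q * d) := by
      have := mul_mem_piece (pow_mem_piece hfp e) (mono_mem_piece (K := K) T)
      rwa [hT, Nat.add_sub_cancel' hed] at this
    have hlow := coeff_hilbert_of_not_injective (i := q * d) f _ hfp hmem hne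
      (by rw [← mul_assoc, hfg, zero_mul])
    have hI : idealOf a = Ideal.span {f} := by
      rw [idealOf]
      congr 1
      ext x
      constructor
      · rintro ⟨j, rfl⟩
        rw [Set.mem_singleton_iff, hf, Subsingleton.elim j 0]
      · rintro rfl
        exact ⟨0, rfl⟩
    rw [← hI, heq, expected, truncate, PowerSeries.coeff_mk,
      coeff_poly n d (d + q * d) (Nat.le_add_right _ _)] at hlow
    have hch : n.choose (q * d) ≤ n.choose (d + q * d) :=
      choose_le_choose_of_add_le (by omega) (by omega)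
    have hch' : (n.choose (q * d) : ℤ) ≤ n.choose (d + q * d) := by exact_mod_cast hch
    rw [Nat.add_sub_cancel_left] at hlow
    split_ifs at hlow <;> omega
  refine ⟨hall, not_generic_of_generic_not ⟨1, one_ne_zero, fun a _ => hall a⟩⟩

end Pool.Agent.Results.MP_3acc10_al.PositiveCharacteristic
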