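import Pool.Agent.W488.SqFree.Basic

/-!
Over every infinite field, two generic linear forms in the square-free algebra on `n` variables
violate the conjectured Hilbert series for `n = 7, 9, 11` and all `n ≥ 13`.
-/

namespace Pool.Agent.Results.MP_3acc10_al.TwoLinearForms

open Pool.Agent.W488.SqFree MvPolynomial

section arithmetic

theorem coeff_poly (n k : ℕ) (hk : 2 ≤ k) :
    PowerSeries.coeff k ((1 + PowerSeries.X : PowerSeries ℤ) ^ n *
      ∏ _j : Fin 2, (1 - PowerSeries.X ^ 1)) =
      (n.choose k : ℤ) - 2 * n.choose (k - 1) + n.choose (k - 2) := by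
  obtain ⟨m, rfl⟩ : ∃ m, k = m + 2 := ⟨k - 2, by omega⟩
  have h1 : ∀ i, PowerSeries.coeff i ((1 + PowerSeries.X : PowerSeries ℤ) ^ n) = n.choose i := by
    intro i
    have : (1 + PowerSeries.X : PowerSeries ℤ) ^ n =
        (((1 + Polynomial.X : Polynomial ℤ) ^ n : Polynomial ℤ) : PowerSeries ℤ) := by
      rw [Polynomial.coe_pow, Polynomial.coe_add, Polynomial.coe_one, Polynomial.coe_X]
    rw [this, Polynomial.coeff_coe, Polynomial.coeff_one_add_X_pow]
  have h2 : (1 + PowerSeries.X : PowerSeries ℤ) ^ n * ∏ _j : Fin 2, (1 - PowerSeries.X ^ 1) =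
      (1 + PowerSeries.X) ^ n - 2 * ((1 + PowerSeries.X) ^ n * PowerSeries.X) +
        ((1 + PowerSeries.X) ^ n * PowerSeries.X) * PowerSeries.X := by
    rw [Fin.prod_univ_two]; ring
  rw [h2, map_add, map_sub]
  have h3 : (2 : PowerSeries ℤ) = PowerSeries.C 2 := by simp
  rw [h3, PowerSeries.coeff_C_mul, PowerSeries.coeff_succ_mul_X, PowerSeries.coeff_succ_mul_X,
    PowerSeries.coeff_succ_mul_X, h1, h1, h1]
  rfl

theorem choose_odd (m : ℕ) (hm : 1 ≤ m) :
    ((2 * m + 5).choose (m + 2) : ℤ) - 2 * (2 * m + 5).choose (m + 1) + (2 * m + 5).choose m ≤ 0 := by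
  have h1 : ((2 * m + 5).choose (m + 1) : ℤ) * (m + 1) = (2 * m + 5).choose m * (m + 5) := by
    have := Nat.choose_succ_right_eq (2 * m + 5) m
    have h : 2 * m + 5 - m = m + 5 := by omega
    rw [h] at this
    exact_mod_cast this
  have h2 : ((2 * m + 5).choose (m + 2) : ℤ) * (m + 2) = (2 * m + 5).choose (m + 1) * (m + 4) := by
    have := Nat.choose_succ_right_eq (2 * m + 5) (m + 1)
    have h : 2 * m + 5 - (m + 1) = m + 4 := by omega
    rw [h] at this
    exact_mod_cast this
  set a : ℤ := ((Nat.choose (2 * m + 5) m : ℕ) : ℤ)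
  set b : ℤ := ((Nat.choose (2 * m + 5) (m + 1) : ℕ) : ℤ)
  set c : ℤ := ((Nat.choose (2 * m + 5) (m + 2) : ℕ) : ℤ)
  have ha : 0 ≤ a := Int.natCast_nonneg _
  have hm' : (1 : ℤ) ≤ m := by exact_mod_cast hm
  have hpos : (0 : ℤ) < (m + 1) * (m + 2) := by positivity
  have key : (c - 2 * b + a) * ((m + 1) * (m + 2)) = a * (2 - 2 * m) := by
    linear_combination (m + 1 : ℤ) * h2 + ((m + 4 : ℤ) - 2 * (m + 2)) * h1
  by_contra hcon
  push Not at hcon
  have := mul_pos hcon hpos
  rw [key] at this
  nlinarith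

theorem choose_even (m : ℕ) (hm : 4 ≤ m) :
    ((2 * m + 6).choose (m + 2) : ℤ) - 2 * (2 * m + 6).choose (m + 1) + (2 * m + 6).choose m ≤ 0 := by
  have h1 : ((2 * m + 6).choose (m + 1) : ℤ) * (m + 1) = (2 * m + 6).choose m * (m + 6) := by
    have := Nat.choose_succ_right_eq (2 * m + 6) m
    have h : 2 * m + 6 - m = m + 6 := by omega
    rw [h] at this
    exact_mod_cast this
  have h2 : ((2 * m + 6).choose (m + 2) : ℤ) * (m + 2) = (2 * m + 6).choose (m + 1) * (m + 5) := by
    have := Nat.choose_succ_right_eq (2 * m + 6) (m + 1)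
    have h : 2 * m + 6 - (m + 1) = m + 5 := by omega
    rw [h] at this
    exact_mod_cast this
  set a : ℤ := ((Nat.choose (2 * m + 6) m : ℕ) : ℤ)
  set b : ℤ := ((Nat.choose (2 * m + 6) (m + 1) : ℕ) : ℤ)
  set c : ℤ := ((Nat.choose (2 * m + 6) (m + 2) : ℕ) : ℤ)
  have ha : 0 ≤ a := Int.natCast_nonneg _
  have hm' : (4 : ℤ) ≤ m := by exact_mod_cast hm
  have hpos : (0 : ℤ) < (m + 1) * (m + 2) := by positivity
  have key : (c - 2 * b + a) * ((m + 1) * (m + 2)) = a * (8 - 2 * m) := by
    linear_combination (m + 1 : ℤ) * h2 + ((m + 5 : ℤ) - 2 * (m + 2)) * h1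
  by_contra hcon
  push Not at hcon
  have := mul_pos hcon hpos
  rw [key] at this
  nlinarith

theorem exists_k (n : ℕ) (hn : n = 7 ∨ n = 9 ∨ n = 11 ∨ 13 ≤ n) :
    ∃ k, 2 * k + 1 ≤ n ∧ PowerSeries.coeff k (expected n (fun _ : Fin 2 => 1)) = 0 := by
  have key : ∀ k, 2 ≤ k → (n.choose k : ℤ) - 2 * n.choose (k - 1) + n.choose (k - 2) ≤ 0 →
      PowerSeries.coeff k (expected n (fun _ : Fin 2 => 1)) = 0 := by
    intro k hk h
    rw [expected, truncate, PowerSeries.coeff_mk, if_neg]
    push Not
    exact ⟨k, le_rfl, by rw [coeff_poly n k hk]; exact h⟩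
  rcases Nat.even_or_odd' n with ⟨e, he | he⟩
  · obtain ⟨m, rfl⟩ : ∃ m, e = m + 3 := ⟨e - 3, by omega⟩
    refine ⟨m + 2, by omega, key _ (by omega) ?_⟩
    have h : n = 2 * m + 6 := by omega
    subst h
    exact choose_even m (by omega)
  · obtain ⟨m, rfl⟩ : ∃ m, e = m + 2 := ⟨e - 2, by omega⟩
    refine ⟨m + 2, by omega, key _ (by omega) ?_⟩
    have h : n = 2 * m + 5 := by omega
    subst h
    exact choose_odd m (by omega)

end arithmetic

section forms

variable {K : Type*} [Field K] {n : ℕ}

/-- index of the coefficient of `x_i` in the `j`-th linear form -/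
def idx (j : Fin 2) (i : Fin n) : CoeffIdx n (fun _ : Fin 2 => 1) := ⟨j, ⟨{i}, Finset.card_singleton i⟩⟩

theorem form_eq (a : CoeffIdx n (fun _ : Fin 2 => 1) → K) (j : Fin 2) :
    form a j = ∑ i : Fin n, a (idx j i) • mono K n {i} := by
  classical
  rw [form]
  symm
  refine Finset.sum_bij (fun i _ => (⟨{i}, Finset.card_singleton i⟩ : {s : Finset (Fin n) // s.card = 1}))
    (fun _ _ => Finset.mem_univ _) ?_ ?_ ?_
  · intro i _ i' _ h
    simpa using h
  · rintro ⟨s, hs⟩ _
    obtain ⟨i, rfl⟩ := Finset.card_eq_one.mp hs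
    exact ⟨i, Finset.mem_univ _, rfl⟩
  · intro i _
    rfl

theorem lagrange (t : Fin n → K) (ht : Function.Injective t) (P : Polynomial K)
    (hP : P.natDegree + 1 < n) :
    ∑ i, P.eval (t i) / ∏ j ∈ Finset.univ.erase i, (t i - t j) = 0 := by
  have h1 : P.degree < (Finset.univ : Finset (Fin n)).card := by
    refine lt_of_le_of_lt Polynomial.degree_le_natDegree ?_
    rw [Finset.card_univ, Fintype.card_fin]
    exact_mod_cast (by omega : P.natDegree < n)
  rw [← Lagrange.coeff_eq_sum (s := Finset.univ) ht.injOn h1, Finset.card_univ, Fintype.card_fin]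
  exact Polynomial.coeff_eq_zero_of_natDegree_lt (by omega)

/-- The quotient by two linear forms `∑ A_i x_i`, `∑ A_i t_i x_i` with nonzero `A_i` and distinct
`t_i` is nonzero in degree `k` when `2k+1 ≤ n`. -/
theorem exists_mono_not_mem (a : CoeffIdx n (fun _ : Fin 2 => 1) → K) (k : ℕ) (hk : 2 * k + 1 ≤ n)
    (hA : ∀ i, a (idx 0 i) ≠ 0)
    (hB : ∀ i j, i ≠ j → a (idx 1 i) * a (idx 0 j) - a (idx 1 j) * a (idx 0 i) ≠ 0) :
    ∃ s : Finset (Fin n), s.card = k ∧ mono K n s ∉ idealOf a := by
  classical
  set t : Fin n → K := fun i => a (idx 1 i) / a (idx 0 i) with ht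
  have htinj : Function.Injective t := by
    intro i j hij
    by_contra hne
    apply hB i j hne
    simp only [ht] at hij
    rw [div_eq_div_iff (hA i) (hA j)] at hij
    rw [hij, sub_self]
  have htsub : ∀ i j, i ≠ j → t i - t j ≠ 0 := fun i j hij => sub_ne_zero.mpr (fun h => hij (htinj h))
  set u : Fin n → K := fun i => 1 / ∏ j ∈ Finset.univ.erase i, (t i - t j) with hu
  have hune : ∀ i, u i ≠ 0 := by
    intro i
    simp only [hu]
    refine one_div_ne_zero (Finset.prod_ne_zero_iff.mpr fun j hj => ?_)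
    exact htsub i j (Finset.ne_of_mem_erase hj).symm
  set w : Fin n → K := fun i => u i / a (idx 0 i) with hw
  have hwne : ∀ i, w i ≠ 0 := fun i => div_ne_zero (hune i) (hA i)
  set D : Finset (Fin n) → K := fun s => ∏ i ∈ s, (w i * ∏ j ∈ s.erase i, (t i - t j)) with hD
  have hDne : ∀ s, D s ≠ 0 := by
    intro s
    refine Finset.prod_ne_zero_iff.mpr fun i _ => mul_ne_zero (hwne i) ?_
    exact Finset.prod_ne_zero_iff.mpr fun j hj => htsub i j (Finset.ne_of_mem_erase hj).symm
  have hDins : ∀ i T, i ∉ T → D (insert i T) = w i * (∏ j ∈ T, ((t i - t j) * (t j - t i))) * D T := by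
    intro i T hi
    simp only [hD]
    rw [Finset.prod_insert hi, Finset.erase_insert hi]
    have h2 : ∏ m ∈ T, (w m * ∏ j ∈ (insert i T).erase m, (t m - t j)) =
        (∏ m ∈ T, (t m - t i)) * ∏ m ∈ T, (w m * ∏ j ∈ T.erase m, (t m - t j)) := by
      rw [← Finset.prod_mul_distrib]
      refine Finset.prod_congr rfl fun m hm => ?_
      have hne : m ≠ i := fun h => hi (h ▸ hm)
      rw [Finset.erase_insert_of_ne hne.symm, Finset.prod_insert
        (fun h => hi (Finset.mem_of_mem_erase h))]
      ring
    have h3 : ∏ j ∈ T, ((t i - t j) * (t j - t i)) =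
        (∏ j ∈ T, (t i - t j)) * ∏ j ∈ T, (t j - t i) := Finset.prod_mul_distrib
    rw [h2, h3]
    ring
  obtain ⟨φ, hφ⟩ := exists_functional (K := K) (n := n) (fun s => if s.card = k then D s else 0)
  have hsum : ∀ (T : Finset (Fin n)) (c : Fin n → K) (j : Fin 2),
      φ (mono K n T * form a j) =
        ∑ i, a (idx j i) * (if i ∈ T then 0 else if T.card + 1 = k then D (insert i T) else 0) := by
    intro T c j
    rw [form_eq, Finset.mul_sum, map_sum]
    refine Finset.sum_congr rfl fun i _ => ?_
    rw [mul_smul_comm, map_smul, smul_eq_mul]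
    congr 1
    have h1 : mono K n T * mono K n {i} = if i ∈ T then 0 else mono K n (insert i T) := by
      rw [← X_mul_mono, mul_comm]
      simp [mono]
    rw [h1]
    split_ifs with h2 h3
    · simp
    · rw [hφ, if_pos (by rw [Finset.card_insert_of_notMem h2]; exact h3)]
    · rw [hφ, if_neg (by rw [Finset.card_insert_of_notMem h2]; exact h3)]
  have hvan : ∀ j T, φ (mono K n T * form a j) = 0 := by
    intro j T
    rw [hsum T (fun _ => 0) j]
    by_cases hT : T.card + 1 = k
    swap
    · refine Finset.sum_eq_zero fun i _ => ?_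
      simp [hT]
    -- the polynomial
    set P : Polynomial K := ∏ m ∈ T, ((Polynomial.X - Polynomial.C (t m)) *
      (Polynomial.C (t m) - Polynomial.X)) with hPdef
    have hPdeg : P.natDegree ≤ 2 * T.card := by
      refine (Polynomial.natDegree_prod_le _ _).trans ?_
      rw [mul_comm, ← smul_eq_mul, ← Finset.sum_const]
      refine Finset.sum_le_sum fun m _ => ?_
      refine Polynomial.natDegree_mul_le.trans ?_
      have h1 : (Polynomial.X - Polynomial.C (t m)).natDegree ≤ 1 := by
        rw [Polynomial.natDegree_X_sub_C]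
      have h2 : (Polynomial.C (t m) - Polynomial.X).natDegree ≤ 1 := by
        rw [← Polynomial.natDegree_neg, neg_sub, Polynomial.natDegree_X_sub_C]
      omega
    have hPeval : ∀ i, P.eval (t i) = ∏ j ∈ T, ((t i - t j) * (t j - t i)) := by
      intro i
      simp [hPdef, Polynomial.eval_prod]
    have hterm : ∀ i, (if i ∈ T then 0 else if T.card + 1 = k then D (insert i T) else 0) =
        D T * w i * P.eval (t i) := by
      intro i
      rw [hPeval]
      split_ifs with h1
      · rw [Finset.prod_eq_zero h1 (by rw [sub_self, zero_mul]), mul_zero]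
      · rw [hDins i T h1]; ring
    have hgoal : ∑ i, a (idx j i) * (D T * w i * P.eval (t i)) = 0 := by
      fin_cases j
      · have h0 := lagrange t htinj P (by omega)
        have : ∀ i, a (idx 0 i) * (D T * w i * P.eval (t i)) =
            D T * (P.eval (t i) / ∏ j ∈ Finset.univ.erase i, (t i - t j)) := by
          intro i
          simp only [hw, hu]
          field_simp [hA i]
        simp only [Fin.zero_eta, this]
        rw [← Finset.mul_sum, h0, mul_zero]
      · have hdeg : (P * Polynomial.X).natDegree + 1 < n := by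
          have := Polynomial.natDegree_mul_le (p := P) (q := Polynomial.X)
          rw [Polynomial.natDegree_X] at this
          omega
        have h0 := lagrange t htinj (P * Polynomial.X) hdeg
        have : ∀ i, a (idx 1 i) * (D T * w i * P.eval (t i)) =
            D T * ((P * Polynomial.X).eval (t i) / ∏ j ∈ Finset.univ.erase i, (t i - t j)) := by
          intro i
          have hbt : a (idx 1 i) = t i * a (idx 0 i) := by
            simp only [ht]; field_simp [hA i]
          rw [hbt, Polynomial.eval_mul, Polynomial.eval_X]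
          simp only [hw, hu]
          field_simp [hA i]
        simp only [Fin.mk_one, this]
        rw [← Finset.mul_sum, h0, mul_zero]
    refine (Finset.sum_congr rfl fun i _ => ?_).trans hgoal
    rw [hterm i]
  obtain ⟨s, -, hs⟩ := Finset.exists_subset_card_eq (s := (Finset.univ : Finset (Fin n))) (n := k)
    (by rw [Finset.card_univ, Fintype.card_fin]; omega)
  refine ⟨s, hs, fun hmem => ?_⟩
  have h1 := functional_eq_zero a φ hvan _ hmem
  rw [hφ, if_pos hs] at h1
  exact hDne s h1

end forms

/-- Over every infinite field `K` and for `n = 7, 9, 11` and all `n ≥ 13`, the Hilbert series of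
the square-free algebra on `n` variables modulo two generic linear forms is different from
`⟨(1+t)^n (1-t)^2⟩`: it differs on a nonempty Zariski open set of coefficient vectors, and it does
not agree on any nonempty Zariski open set. -/
theorem result (K : Type*) [Field K] [Infinite K] (n : ℕ)
    (hn : n = 7 ∨ n = 9 ∨ n = 11 ∨ 13 ≤ n) :
    Generic K n (fun _ : Fin 2 => 1)
      (fun a => hilbertSeries (idealOf a) ≠ expected n (fun _ : Fin 2 => 1)) ∧
    ¬ Generic K n (fun _ : Fin 2 => 1)
      (fun a => hilbertSeries (idealOf a) = expected n (fun _ : Fin 2 => 1)) := by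
  classical
  have h : Generic K n (fun _ : Fin 2 => 1)
      (fun a => hilbertSeries (idealOf a) ≠ expected n (fun _ : Fin 2 => 1)) := by
    refine ⟨(∏ i, X (idx 0 i)) * ∏ i, ∏ j ∈ Finset.univ.erase i,
      (X (idx 1 i) * X (idx 0 j) - X (idx 1 j) * X (idx 0 i)), ?_, ?_⟩
    · -- nonvanishing at a point
      intro h0
      let a : CoeffIdx n (fun _ : Fin 2 => 1) → K := fun p =>
        if p.1 = 0 then 1 else ∑ i ∈ p.2.1, (Infinite.natEmbedding K) i
      have := congrArg (eval a) h0
      rw [map_zero, map_mul, map_prod, map_prod] at this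
      have ha0 : ∀ i, a (idx 0 i) = 1 := fun i => by simp [a, idx]
      have ha1 : ∀ i, a (idx 1 i) = (Infinite.natEmbedding K) i := fun i => by simp [a, idx]
      rcases mul_eq_zero.mp this with h1 | h1
      · obtain ⟨i, _, hi⟩ := Finset.prod_eq_zero_iff.mp h1
        rw [eval_X, ha0] at hi
        exact one_ne_zero hi
      · obtain ⟨i, _, hi⟩ := Finset.prod_eq_zero_iff.mp h1
        rw [map_prod] at hi
        obtain ⟨j, hj, hij⟩ := Finset.prod_eq_zero_iff.mp hi
        rw [map_sub, map_mul, map_mul, eval_X, eval_X, eval_X, eval_X, ha0, ha0, ha1, ha1,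
          mul_one, mul_one, sub_eq_zero] at hij
        have := (Infinite.natEmbedding K).injective hij
        exact (Finset.ne_of_mem_erase hj) (Fin.ext this).symm
    · intro a ha heq
      rw [map_mul, map_prod, map_prod] at ha
      have hA : ∀ i, a (idx 0 i) ≠ 0 := by
        intro i
        have := Finset.prod_ne_zero_iff.mp (left_ne_zero_of_mul ha) i (Finset.mem_univ _)
        rwa [eval_X] at this
      have hB : ∀ i j, i ≠ j →
          a (idx 1 i) * a (idx 0 j) - a (idx 1 j) * a (idx 0 i) ≠ 0 := by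
        intro i j hij
        have := Finset.prod_ne_zero_iff.mp (right_ne_zero_of_mul ha) i (Finset.mem_univ _)
        rw [map_prod] at this
        have := Finset.prod_ne_zero_iff.mp this j (Finset.mem_erase.mpr ⟨hij.symm, Finset.mem_univ _⟩)
        rwa [map_sub, map_mul, map_mul, eval_X, eval_X, eval_X, eval_X] at this
      obtain ⟨k, hk, hcoef⟩ := exists_k n hn
      obtain ⟨s, hs, hmem⟩ := exists_mono_not_mem a k hk hA hB
      have h1 := one_le_coeff hmem
      rw [hs, heq, hcoef] at h1
      omega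
  exact ⟨h, not_generic_of_generic_not h⟩

end Pool.Agent.Results.MP_3acc10_al.TwoLinearForms
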